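import Pool.Agent.H11.NY.Targets

/-!
# Module C3 of the board ny_modules: even permutations moving and scaling disjoint `q`-cycles
-/

set_option autoImplicit false

open Equiv (Perm)

namespace Pool.Agent.H94.NY.C3

open Pool.Agent.H11.NY

/-- coordinates on the union of the supports of disjoint `q`-cycles -/
theorem exists_coord {q m : ℕ} {Ω : Type} [Fintype Ω] [DecidableEq Ω] (hq : q.Prime)
    (s : Fin m → Perm Ω) (hs : Cyc q s) :
    ∃ E : Fin m × ZMod q → Ω, Function.Injective E ∧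
      (∀ (i : Fin m) (t : ZMod q) (k : ℕ), (s i ^ k) (E (i, t)) = E (i, t + k)) ∧
      (∀ (i j : Fin m) (t : ZMod q), i ≠ j → s i (E (j, t)) = E (j, t)) ∧
      ∀ x, x ∉ Set.range E → ∀ i, s i x = x := by
  have _ : NeZero q := ⟨hq.ne_zero⟩
  have hx : ∀ i, ∃ x, s i x ≠ x := by
    intro i
    obtain ⟨x, hx, -⟩ := (hs.1 i).1
    exact ⟨x, hx⟩
  choose x hx using hx
  have hord : ∀ i, orderOf (s i) = q := fun i => by rw [(hs.1 i).1.orderOf, (hs.1 i).2]
  set E : Fin m × ZMod q → Ω := fun p => (s p.1 ^ p.2.val) (x p.1) with hE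
  have hmem : ∀ p, s p.1 (E p) ≠ E p := by
    intro p hp
    apply hx p.1
    have h1 : (s p.1 ^ p.2.val) (s p.1 (x p.1)) = (s p.1 ^ p.2.val) (x p.1) := by
      have h2 : (s p.1 ^ p.2.val) (s p.1 (x p.1)) = s p.1 ((s p.1 ^ p.2.val) (x p.1)) := by
        rw [← Equiv.Perm.mul_apply, ← Equiv.Perm.mul_apply, ← pow_succ, ← pow_succ']
      rw [h2]
      exact hp
    exact (s p.1 ^ p.2.val).injective h1
  have hoff : ∀ i j, i ≠ j → ∀ t, s i (E (j, t)) = E (j, t) := by
    intro i j hij t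
    exact ((hs.2 i j hij) (E (j, t))).resolve_right (hmem (j, t))
  have hnat : ∀ (i : Fin m) (N : ℕ), (s i ^ N) (x i) = E (i, (N : ZMod q)) := by
    intro i N
    simp only [hE]
    rw [ZMod.val_natCast, ← pow_mod_orderOf (s i) N, hord]
  refine ⟨E, ?_, ?_, ?_, ?_⟩
  · rintro ⟨i, t⟩ ⟨j, u⟩ h
    have hij : i = j := by
      by_contra hne
      have h1 := hoff i j hne u
      rw [← h] at h1
      exact hmem (i, t) h1
    subst hij
    have h1 : s i ^ t.val = s i ^ u.val :=
      (hs.1 i).1.pow_eq_pow_iff.2 ⟨x i, hx i, h⟩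
    rw [pow_inj_mod, hord, Nat.mod_eq_of_lt (ZMod.val_lt t), Nat.mod_eq_of_lt (ZMod.val_lt u)] at h1
    rw [ZMod.val_injective q h1]
  · intro i t k
    have h1 : (s i ^ k) (E (i, t)) = (s i ^ (k + t.val)) (x i) := by
      rw [pow_add]
      rfl
    rw [h1, hnat]
    push_cast
    rw [ZMod.natCast_zmod_val, add_comm]
  · intro i j t hij
    exact hoff i j hij t
  · intro y hy i
    by_contra hcon
    obtain ⟨N, hN⟩ := (hs.1 i).1.exists_pow_eq (hx i) hcon
    apply hy
    exact ⟨(i, (N : ZMod q)), by rw [← hnat, hN]⟩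

/-- the permutation of the coordinates -/
noncomputable def coordPerm {q m : ℕ} (π : Perm (Fin m)) (u : Fin m → (ZMod q)ˣ) :
    Perm (Fin m × ZMod q) :=
  Equiv.prodCongrLeft (fun _ : ZMod q => π) * Equiv.prodCongrRight (fun i => (u i).mulLeft)

theorem coordPerm_apply {q m : ℕ} (π : Perm (Fin m)) (u : Fin m → (ZMod q)ˣ) (i : Fin m)
    (t : ZMod q) : coordPerm π u (i, t) = (π i, (u i : ZMod q) * t) := rfl

theorem main {q m : ℕ} {Ω : Type} [Fintype Ω] [DecidableEq Ω] (hq : q.Prime) (hq2 : q ≠ 2)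
    (s : Fin m → Perm Ω) (hs : Cyc q s) (n : Fin m → ℕ) (hn : ∀ i, ¬ q ∣ n i) :
    ∃ ε : ℤˣ, ((∀ i, n i = 1) → ε = 1) ∧ ∀ π : Perm (Fin m), ∃ w : Perm Ω,
      Equiv.Perm.sign w = Equiv.Perm.sign π * ε ∧ (∀ x, (∀ i, s i x = x) → w x = x) ∧
      ∀ i, w * s i * w⁻¹ = s (π i) ^ n i := by
  classical
  have _ : NeZero q := ⟨hq.ne_zero⟩
  obtain ⟨E, hinj, hpow, hoff, hrange⟩ := exists_coord hq s hs
  have hcop : ∀ i, Nat.Coprime (n i) q := fun i =>
    ((Nat.Prime.coprime_iff_not_dvd hq).2 (hn i)).symm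
  set u : Fin m → (ZMod q)ˣ := fun i => ZMod.unitOfCoprime (n i) (hcop i) with hu
  refine ⟨∏ i, Equiv.Perm.sign ((u i).mulLeft), ?_, ?_⟩
  · intro h1
    apply Finset.prod_eq_one
    intro i _
    have h2 : (u i).mulLeft = (1 : Perm (ZMod q)) := by
      ext t
      have h3 : ((u i : (ZMod q)ˣ) : ZMod q) = (n i : ZMod q) := ZMod.coe_unitOfCoprime _ _
      rw [Units.mulLeft_apply, h3, h1 i]
      simp
    rw [h2, Equiv.Perm.sign_one]
  · intro π
    set F : Fin m × ZMod q ↪ Ω := ⟨E, hinj⟩ with hF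
    set w : Perm Ω := (coordPerm π u).viaFintypeEmbedding F with hw
    have hwE : ∀ (i : Fin m) (t : ZMod q), w (E (i, t)) = E (π i, (n i : ZMod q) * t) := by
      intro i t
      have h1 := Equiv.Perm.viaFintypeEmbedding_apply_image (coordPerm π u) F (i, t)
      rw [coordPerm_apply] at h1
      have h3 : ((u i : (ZMod q)ˣ) : ZMod q) = (n i : ZMod q) := ZMod.coe_unitOfCoprime _ _
      rw [h3] at h1
      exact h1
    have hwout : ∀ x, x ∉ Set.range E → w x = x := by
      intro x hx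
      exact Equiv.Perm.viaFintypeEmbedding_apply_notMem_range (coordPerm π u) F hx
    refine ⟨w, ?_, ?_, ?_⟩
    · have h1 : Equiv.Perm.sign w = Equiv.Perm.sign (coordPerm π u) :=
        Equiv.Perm.viaFintypeEmbedding_sign _ _
      rw [h1, coordPerm, Equiv.Perm.sign_mul, Equiv.Perm.sign_prodCongrLeft,
        Equiv.Perm.sign_prodCongrRight, Finset.prod_const, Finset.card_univ, ZMod.card]
      congr 1
      have hodd : Odd q := hq.odd_of_ne_two hq2
      rcases Int.units_eq_one_or (Equiv.Perm.sign π) with h | h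
      · rw [h, one_pow]
      · rw [h, hodd.neg_one_pow]
    · intro x hx
      apply hwout
      rintro ⟨⟨i, t⟩, rfl⟩
      have h1 := hpow i t 1
      rw [pow_one, hx i] at h1
      have h2 := hinj h1
      rw [Prod.mk.injEq] at h2
      have h3 : ((1 : ℕ) : ZMod q) = 0 := by
        have h4 := h2.2
        rwa [left_eq_add] at h4
      rw [ZMod.natCast_eq_zero_iff] at h3
      exact hq.one_lt.ne' (Nat.dvd_one.1 h3)
    · intro i
      rw [mul_inv_eq_iff_eq_mul]
      ext x
      rw [Equiv.Perm.mul_apply, Equiv.Perm.mul_apply]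
      by_cases hx : x ∈ Set.range E
      · obtain ⟨⟨j, t⟩, rfl⟩ := hx
        by_cases hij : i = j
        · subst hij
          have h1 := hpow i t 1
          rw [pow_one] at h1
          rw [h1, hwE, hwE, hpow]
          congr 2
          push_cast
          ring
        · have h1 := hoff i j t hij
          rw [h1, hwE]
          have h2 : π i ≠ π j := fun h => hij (π.injective h)
          have h3 := hoff (π i) (π j) ((n j : ZMod q) * t) h2
          rw [Equiv.Perm.pow_apply_eq_self_of_apply_eq_self h3]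
      · rw [hrange x hx i, hwout x hx]
        rw [Equiv.Perm.pow_apply_eq_self_of_apply_eq_self (hrange x hx (π i))]

theorem pf_c3 : T_C3 := by
  intro q m Ω _ _ hq hq2 s hs
  constructor
  · intro π hπ
    obtain ⟨ε, h1, h2⟩ := main hq hq2 s hs (fun _ => 1)
      (fun _ h => hq.one_lt.ne' (Nat.dvd_one.1 h))
    obtain ⟨w, hw1, hw2, hw3⟩ := h2 π
    refine ⟨w, ?_, hw2, fun i => ?_⟩
    · rw [Equiv.Perm.mem_alternatingGroup, hw1, hπ, h1 (fun _ => rfl), one_mul]
    · rw [hw3 i, pow_one]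
  · intro n hn k l hkl
    obtain ⟨ε, -, h2⟩ := main hq hq2 s hs n hn
    rcases Int.units_eq_one_or ε with h | h
    · obtain ⟨w, hw1, hw2, hw3⟩ := h2 1
      refine ⟨w, ?_, hw2, Or.inl fun i => ?_⟩
      · rw [Equiv.Perm.mem_alternatingGroup, hw1, h, Equiv.Perm.sign_one, one_mul]
      · rw [hw3 i, Equiv.Perm.one_apply]
    · obtain ⟨w, hw1, hw2, hw3⟩ := h2 (Equiv.swap k l)
      refine ⟨w, ?_, hw2, Or.inr hw3⟩
      rw [Equiv.Perm.mem_alternatingGroup, hw1, h, Equiv.Perm.sign_swap hkl]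
      rfl

end Pool.Agent.H94.NY.C3
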