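import Pool.Agent.H11.NY.Targets

/-!
# Module C4 of the board ny_modules: moving and scaling the weights of disjoint `q`-cycles
-/

set_option autoImplicit false

open Equiv (Perm)

namespace Pool.Agent.H94.NY.C4

open Pool.Agent.H11.NY

variable {L Ω K V : Type} [Group L] [Fintype Ω] [DecidableEq Ω] [Field K] [AddCommGroup V]
    [Module K V]

theorem pow_eig {T : Module.End K V} {a : K} {v : V} (h : T v = a • v) (n : ℕ) :
    (T ^ n) v = a ^ n • v := by
  induction n with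
  | zero => simp
  | succ n ih =>
    rw [pow_succ, Module.End.mul_apply, h, map_smul, ih, smul_smul, pow_succ']

/-- the transported weight -/
theorem move {q m : ℕ} (hq : q.Prime) {ψ : L →* alternatingGroup Ω}
    (hψ : Function.Surjective ψ) {ρ : L →* Module.End K V} {c : Perm Ω → Module.End K V}
    (hc : CanLift ψ ρ q c) {ω : K} (h1 : ω ^ q = 1) {s : Fin m → Perm Ω} (hs : Cyc q s)
    {χ : Fin m → ZMod q} (ho : Occ ω (fun i => c (s i)) χ) {w : Perm Ω}
    (hw : w ∈ alternatingGroup Ω) (π : Perm (Fin m)) (n : Fin m → ℕ) (μ : Fin m → ZMod q)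
    (hn : ∀ i, ¬ q ∣ n i) (hnμ : ∀ i, (n i : ZMod q) * μ i = 1)
    (hws : ∀ i, w * s i * w⁻¹ = s (π i) ^ n i) :
    Occ ω (fun i => c (s i)) (fun j => μ (π⁻¹ j) * χ (π⁻¹ j)) := by
  have _ : NeZero q := ⟨hq.ne_zero⟩
  obtain ⟨v, hv, hvχ⟩ := ho
  obtain ⟨x, hx⟩ := hψ ⟨w, hw⟩
  have hxw : (ψ x : Perm Ω) = w := by rw [hx]
  refine ⟨ρ x v, ?_, ?_⟩
  · intro h0
    apply hv
    have h2 : ρ x⁻¹ (ρ x v) = v := by
      have h3 : ρ x⁻¹ * ρ x = 1 := by rw [← map_mul, inv_mul_cancel, map_one]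
      exact congrArg (fun f : Module.End K V => f v) h3
    rw [h0, map_zero] at h2
    exact h2.symm
  · intro j
    obtain ⟨i, rfl⟩ := π.surjective j
    have hpi : π⁻¹ (π i) = i := by simp
    change c (s (π i)) (ρ x v) = ω ^ (μ (π⁻¹ (π i)) * χ (π⁻¹ (π i))).val • ρ x v
    rw [hpi]
    obtain ⟨-, -, -, h4⟩ := hc (s i) (hs.1 i).1 (hs.1 i).2
    obtain ⟨-, h5, h6, -⟩ := hc (s (π i)) (hs.1 (π i)).1 (hs.1 (π i)).2
    have h7 := h4 x
    rw [hxw, hws i, h6 (n i) (hn i)] at h7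
    have h8 : (c (s (π i)) ^ n i) (ρ x v) = ω ^ (χ i).val • ρ x v := by
      have h9 := congrArg (fun f : Module.End K V => f v) h7
      simp only [Module.End.mul_apply] at h9
      rw [← h9]
      have h10 : c (s i) v = ω ^ (χ i).val • v := hvχ i
      rw [h10, map_smul]
    have h9 := pow_eig h8 (μ i).val
    rw [← pow_mul, ← pow_mul] at h9
    have h10 : c (s (π i)) ^ (n i * (μ i).val) = c (s (π i)) := by
      have h11 : n i * (μ i).val % q = 1 % q := by
        have h12 : ((n i * (μ i).val : ℕ) : ZMod q) = ((1 : ℕ) : ZMod q) := by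
          push_cast
          rw [ZMod.natCast_zmod_val]
          exact hnμ i
        exact (ZMod.natCast_eq_natCast_iff' _ _ _).1 h12
      rw [pow_eq_pow_mod _ h5, h11, ← pow_eq_pow_mod _ h5, pow_one]
    have h11 : ω ^ ((χ i).val * (μ i).val) = ω ^ (μ i * χ i).val := by
      rw [ZMod.val_mul, pow_eq_pow_mod _ h1, mul_comm]
    rw [h10, h11] at h9
    exact h9

theorem pf_c4 : T_C3 → T_C4 := by
  intro hC3 q m L Ω _ _ _ _ ψ K V _ _ _ ρ c ω s χ hq h5 hψ hc h1 h2 hs ho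
  have _ : Fact q.Prime := ⟨hq⟩
  have _ : NeZero q := ⟨hq.ne_zero⟩
  obtain ⟨hA, hB⟩ := hC3 q m Ω hq (by omega) s hs
  constructor
  · intro π hπ
    obtain ⟨w, hw1, -, hw3⟩ := hA π⁻¹ (by rw [Equiv.Perm.sign_inv, hπ])
    have h3 := move hq hψ hc h1 hs ho hw1 π⁻¹ (fun _ => 1) (fun _ => 1)
      (fun _ h => hq.one_lt.ne' (Nat.dvd_one.1 h)) (fun _ => by simp)
      (fun i => by rw [hw3 i, pow_one])
    simpa using h3
  · intro μ hμ k l hkl
    have hn : ∀ i, ¬ q ∣ ((μ i)⁻¹).val := by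
      intro i h
      have h3 : ((μ i)⁻¹).val = 0 := Nat.eq_zero_of_dvd_of_lt h (ZMod.val_lt _)
      rw [ZMod.val_eq_zero, inv_eq_zero] at h3
      exact hμ i h3
    have hnμ : ∀ i, ((((μ i)⁻¹).val : ℕ) : ZMod q) * μ i = 1 := by
      intro i
      rw [ZMod.natCast_zmod_val]
      exact inv_mul_cancel₀ (hμ i)
    obtain ⟨w, hw1, -, hw3⟩ := hB (fun i => ((μ i)⁻¹).val) hn k l hkl
    rcases hw3 with hw3 | hw3
    · left
      have h3 := move hq hψ hc h1 hs ho hw1 1 (fun i => ((μ i)⁻¹).val) μ hn hnμ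
        (fun i => by rw [hw3 i, Equiv.Perm.one_apply])
      simpa using h3
    · right
      have h3 := move hq hψ hc h1 hs ho hw1 (Equiv.swap k l) (fun i => ((μ i)⁻¹).val) μ hn hnμ
        hw3
      simpa using h3

end Pool.Agent.H94.NY.C4
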