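import Pool.Agent.H11.NY.Targets

/-!
# Module C5 of the board ny_modules: joint weights of commuting operators of order q
-/

set_option autoImplicit false

open Equiv (Perm)

namespace Pool.Agent.H94.NY.C5

open Pool.Agent.H11.NY

/-- the sum of the powers of a non-trivial root of unity vanishes -/
theorem geom_zero {K : Type} [Field K] {q : ℕ} {ζ : K} (h1 : ζ ^ q = 1) (h2 : ζ ≠ 1) :
    ∑ x ∈ Finset.range q, ζ ^ x = 0 := by
  have h := geom_sum_mul ζ q
  rw [h1, sub_self] at h
  exact (mul_eq_zero.1 h).resolve_right (sub_ne_zero.2 h2)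

/-- powers of a root of unity of prime order -/
theorem pow_ne {K : Type} [Field K] {q : ℕ} (hq : q.Prime) {ω : K} (h1 : ω ^ q = 1) (h2 : ω ≠ 1)
    {j : ℕ} (hj0 : j ≠ 0) (hj : j < q) : ω ^ j ≠ 1 := by
  intro h
  have _ : Fact q.Prime := ⟨hq⟩
  have h3 : orderOf ω = q := orderOf_eq_prime h1 h2
  have h4 := orderOf_dvd_of_pow_eq_one h
  rw [h3] at h4
  exact absurd (Nat.le_of_dvd (Nat.pos_of_ne_zero hj0) h4) (not_le.2 hj)

/-- the projection to the eigenspace -/
noncomputable def proj {K V : Type} [Field K] [AddCommGroup V] [Module K V] (q : ℕ) (ω : K)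
    (S : Module.End K V) (x : ℕ) : Module.End K V :=
  (q : K)⁻¹ • ∑ j ∈ Finset.range q, (ω⁻¹ ^ x) ^ j • S ^ j

variable {K V : Type} [Field K] [AddCommGroup V] [Module K V]

theorem proj_apply (q : ℕ) (ω : K) (S : Module.End K V) (x : ℕ) (v : V) :
    proj q ω S x v = (q : K)⁻¹ • ∑ j ∈ Finset.range q, (ω⁻¹ ^ x) ^ j • (S ^ j) v := by
  simp [proj, LinearMap.sum_apply]

theorem proj_eig {q : ℕ} {ω : K} (hq0 : q ≠ 0) (h1 : ω ^ q = 1) {S : Module.End K V}
    (hS : S ^ q = 1) (x : ℕ) (v : V) : S (proj q ω S x v) = ω ^ x • proj q ω S x v := by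
  have hω : ω ≠ 0 := by
    rintro rfl
    rw [zero_pow hq0] at h1
    exact zero_ne_one h1
  have hωx : ω ^ x * ω⁻¹ ^ x = 1 := by
    rw [← mul_pow, mul_inv_cancel₀ hω, one_pow]
  set g : ℕ → V := fun j => (ω⁻¹ ^ x) ^ j • (S ^ j) v with hg
  have hgq : g q = g 0 := by
    simp only [hg]
    rw [hS, ← pow_mul, mul_comm, pow_mul, inv_pow, h1]
    simp
  have hsh : ∑ j ∈ Finset.range q, g (j + 1) = ∑ j ∈ Finset.range q, g j := by
    have a1 := Finset.sum_range_succ g q
    have a2 := Finset.sum_range_succ' g q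
    rw [a1, hgq] at a2
    exact (add_right_cancel a2).symm
  rw [proj_apply, map_smul, map_sum, smul_comm (ω ^ x)]
  refine congrArg (fun u : V => (q : K)⁻¹ • u) ?_
  rw [Finset.smul_sum]
  calc ∑ j ∈ Finset.range q, S ((ω⁻¹ ^ x) ^ j • (S ^ j) v)
      = ∑ j ∈ Finset.range q, ω ^ x • g (j + 1) := by
        apply Finset.sum_congr rfl
        intro j _
        simp only [hg]
        rw [map_smul, smul_smul, pow_succ' (ω⁻¹ ^ x) j, ← mul_assoc, hωx, one_mul, pow_succ' S j]
        rfl
    _ = ∑ j ∈ Finset.range q, ω ^ x • g j := by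
        rw [← Finset.smul_sum, hsh, Finset.smul_sum]

theorem proj_sum {q : ℕ} (hq : q.Prime) {ω : K} (h1 : ω ^ q = 1) (h2 : ω ≠ 1)
    (hqK : (q : K) ≠ 0) (S : Module.End K V) (v : V) :
    ∑ x ∈ Finset.range q, proj q ω S x v = v := by
  have hinv1 : (ω⁻¹) ^ q = 1 := by rw [inv_pow, h1, inv_one]
  have hinv2 : (ω⁻¹) ≠ 1 := fun h => h2 (by simpa using h)
  simp only [proj_apply]
  rw [← Finset.smul_sum, Finset.sum_comm]
  have hin : ∀ j ∈ Finset.range q, ∑ x ∈ Finset.range q, (ω⁻¹ ^ x) ^ j • (S ^ j) v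
      = if j = 0 then (q : K) • v else 0 := by
    intro j hj
    rw [← Finset.sum_smul]
    by_cases hj0 : j = 0
    · subst hj0
      simp
    · rw [if_neg hj0]
      have h3 : ∑ x ∈ Finset.range q, (ω⁻¹ ^ x) ^ j = 0 := by
        have h4 : ∀ x : ℕ, (ω⁻¹ ^ x) ^ j = (ω⁻¹ ^ j) ^ x := by
          intro x
          rw [← pow_mul, ← pow_mul, mul_comm]
        simp only [h4]
        apply geom_zero
        · rw [← pow_mul, mul_comm, pow_mul, hinv1, one_pow]
        · exact pow_ne hq hinv1 hinv2 hj0 (Finset.mem_range.1 hj)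
      rw [h3, zero_smul]
  rw [Finset.sum_congr rfl hin, Finset.sum_ite_eq' (Finset.range q) 0,
    if_pos (Finset.mem_range.2 hq.pos), smul_smul, inv_mul_cancel₀ hqK, one_smul]

theorem proj_comm {q : ℕ} {ω : K} {S T : Module.End K V} (h : T * S = S * T) (x : ℕ) (v : V) :
    T (proj q ω S x v) = proj q ω S x (T v) := by
  have hj : ∀ j : ℕ, T ((S ^ j) v) = (S ^ j) (T v) := by
    intro j
    have h3 : T * S ^ j = S ^ j * T := (Commute.pow_right (h : Commute T S) j).eq
    exact congrArg (fun f : Module.End K V => f v) h3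
  rw [proj_apply, proj_apply, map_smul, map_sum]
  congr 1
  apply Finset.sum_congr rfl
  intro j _
  rw [map_smul, hj]

theorem span_top {q m : ℕ} (hq : q.Prime) {ω : K} (h1 : ω ^ q = 1) (h2 : ω ≠ 1)
    (hqK : (q : K) ≠ 0) {T : Fin m → Module.End K V} (hT : ∀ i, T i ^ q = 1)
    (hc : ∀ i j, T i * T j = T j * T i) (s : Finset (Fin m)) :
    Submodule.span K {w : V | ∀ i ∈ s, ∃ x < q, T i w = ω ^ x • w} = ⊤ := by
  classical
  induction s using Finset.induction_on with
  | empty => simp
  | insert a s ha ih =>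
    rw [eq_top_iff, ← ih, Submodule.span_le]
    intro w hw
    have h3 := proj_sum hq h1 h2 hqK (T a) w
    rw [← h3]
    apply Submodule.sum_mem
    intro x hx
    apply Submodule.subset_span
    intro i hi
    rcases Finset.mem_insert.1 hi with rfl | hi
    · exact ⟨x, Finset.mem_range.1 hx, proj_eig hq.ne_zero h1 (hT i) x w⟩
    · obtain ⟨y, hy, hyw⟩ := hw i hi
      refine ⟨y, hy, ?_⟩
      rw [proj_comm (hc i a), hyw, map_smul]

theorem pf_c5 : T_C5 := by
  intro q m K V _ _ _ ω hq h1 h2 hqK T hT hc i j v hv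
  by_contra hcon
  push Not at hcon
  have _ : NeZero q := ⟨hq.ne_zero⟩
  apply hv
  have key : ∀ w ∈ Submodule.span K {w : V | ∀ i ∈ (Finset.univ : Finset (Fin m)),
      ∃ x < q, T i w = ω ^ x • w}, T i (T j w) - T i w - T j w + w = 0 := by
    intro w hw
    induction hw using Submodule.span_induction with
    | mem w hw =>
      by_cases hw0 : w = 0
      · subst hw0
        simp
      have hw' : ∀ i, ∃ x < q, T i w = ω ^ x • w := fun i => hw i (Finset.mem_univ i)
      choose f hf hfw using hw'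
      have hocc : Occ ω T (fun i => ((f i : ℕ) : ZMod q)) := by
        refine ⟨w, hw0, fun i => ?_⟩
        rw [ZMod.val_natCast_of_lt (hf i)]
        exact hfw i
      have h3 := hcon _ hocc
      have hfz : ∀ i, ((f i : ℕ) : ZMod q) = 0 → T i w = w := by
        intro i hi
        have h4 : ((f i : ℕ) : ZMod q).val = f i := ZMod.val_natCast_of_lt (hf i)
        rw [hi, ZMod.val_zero] at h4
        rw [hfw i, ← h4, pow_zero, one_smul]
      by_cases hi : ((f i : ℕ) : ZMod q) = 0
      · have h5 := hfz i hi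
        rw [hfw j, map_smul, h5]
        abel
      · have h5 := hfz j (h3 hi)
        rw [h5]
        abel
    | zero => simp
    | add x y _ _ hx hy =>
      simp only [map_add]
      have h3 : T i (T j x) + T i (T j y) - (T i x + T i y) - (T j x + T j y) + (x + y)
          = (T i (T j x) - T i x - T j x + x) + (T i (T j y) - T i y - T j y + y) := by
        abel
      rw [h3, hx, hy, add_zero]
    | smul a x _ hx =>
      simp only [map_smul]
      rw [← smul_sub, ← smul_sub, ← smul_add, hx, smul_zero]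
  apply key
  rw [span_top hq h1 h2 hqK hT hc]
  exact Submodule.mem_top

end Pool.Agent.H94.NY.C5
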