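import Pool.Agent.H11.NY.Targets

/-!
# Module CE of the board ny_modules: a vanishing statement for disjoint cycles gives LocRep
-/

set_option autoImplicit false

open Equiv (Perm)

namespace Pool.Agent.H94.NY.CE

open Pool.Agent.H11.NY

/-- cycles of length `q` exist -/
theorem exists_qcycle (Λ : Type) [Fintype Λ] [DecidableEq Λ] {q : ℕ} (h2 : 2 ≤ q)
    (hq : q ≤ Fintype.card Λ) : ∃ s : Perm Λ, s.IsCycle ∧ s.support.card = q := by
  have hex : ∃ s : Perm Λ, s.cycleType = {q} := by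
    rw [Equiv.Perm.exists_with_cycleType_iff]
    refine ⟨by simpa using hq, fun a ha => ?_⟩
    rw [Multiset.mem_singleton] at ha
    omega
  obtain ⟨s, hs⟩ := hex
  have h1 : s.IsCycle := by
    rw [← Equiv.Perm.card_cycleType_eq_one, hs, Multiset.card_singleton]
  refine ⟨s, h1, ?_⟩
  rw [← Equiv.Perm.sum_cycleType, hs, Multiset.sum_singleton]

/-- the alternating group is generated by the cycles of odd prime length -/
theorem gen_alt (Λ : Type) [Fintype Λ] [DecidableEq Λ] {q : ℕ} (hq : q.Prime) (h5 : 5 ≤ q)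
    (hΛ : q ≤ Fintype.card Λ) :
    ∀ π ∈ alternatingGroup Λ,
      π ∈ Subgroup.closure {s : Perm Λ | s.IsCycle ∧ s.support.card = q} := by
  obtain ⟨s, hs, hsq⟩ := exists_qcycle Λ (by omega : 2 ≤ q) hΛ
  have hsalt : s ∈ alternatingGroup Λ := by
    rw [Equiv.Perm.mem_alternatingGroup, hs.sign, hsq]
    have hodd : Odd q := hq.odd_of_ne_two (by omega)
    rw [hodd.neg_one_pow, neg_neg]
  have hsim : IsSimpleGroup (alternatingGroup Λ) := by
    apply alternatingGroup.isSimpleGroup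
    rw [Nat.card_eq_fintype_card]
    omega
  set s' : alternatingGroup Λ := ⟨s, hsalt⟩ with hs'
  have hN : Subgroup.normalClosure ({s'} : Set (alternatingGroup Λ)) = ⊤ := by
    rcases (Subgroup.normalClosure_normal (s := ({s'} : Set (alternatingGroup Λ)))).eq_bot_or_eq_top
      with h | h
    · exfalso
      have h1 : s' ∈ Subgroup.normalClosure ({s'} : Set (alternatingGroup Λ)) :=
        Subgroup.subset_normalClosure rfl
      rw [h, Subgroup.mem_bot] at h1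
      have h2 : s = 1 := congrArg (Subtype.val) h1
      exact hs.ne_one h2
    · exact h
  intro π hπ
  have h1 : (⟨π, hπ⟩ : alternatingGroup Λ) ∈
      Subgroup.normalClosure ({s'} : Set (alternatingGroup Λ)) := by
    rw [hN]
    exact Subgroup.mem_top _
  have h2 : Subgroup.normalClosure ({s'} : Set (alternatingGroup Λ)) ≤
      (Subgroup.closure {s : Perm Λ | s.IsCycle ∧ s.support.card = q}).comap
        (alternatingGroup Λ).subtype := by
    rw [Subgroup.normalClosure, Subgroup.closure_le]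
    intro x hx
    rw [Group.mem_conjugatesOfSet_iff] at hx
    obtain ⟨a, ha, hax⟩ := hx
    rw [Set.mem_singleton_iff] at ha
    subst ha
    rw [isConj_iff] at hax
    obtain ⟨b, hb⟩ := hax
    apply Subgroup.subset_closure
    have h3 : ((alternatingGroup Λ).subtype x : Perm Λ) = (b : Perm Λ) * s * (b : Perm Λ)⁻¹ := by
      rw [← hb]
      rfl
    rw [h3]
    refine ⟨Equiv.Perm.IsCycle.conj hs, ?_⟩
    rw [Equiv.Perm.card_support_conj, hsq]
  exact h2 h1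

/-- even permutations supported in a large set are products of `q`-cycles supported there -/
theorem gen_set {Ω : Type} [Fintype Ω] [DecidableEq Ω] {q : ℕ} (hq : q.Prime) (h5 : 5 ≤ q)
    (Δ : Finset Ω) (hΔ : q ≤ Δ.card) (π : Perm Ω) (hπ : π ∈ alternatingGroup Ω)
    (hfix : ∀ x, x ∉ Δ → π x = x) :
    π ∈ Subgroup.closure {s : Perm Ω | s.IsCycle ∧ s.support.card = q ∧ s.support ⊆ Δ} := by
  have hinv : ∀ x, π x ∈ Δ ↔ x ∈ Δ := by
    intro x
    by_cases hx : x ∈ Δ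
    · refine ⟨fun _ => hx, fun _ => ?_⟩
      by_contra hcon
      have h1 := hfix _ hcon
      have h2 : π x = x := π.injective h1
      rw [h2] at hcon
      exact hcon hx
    · rw [hfix x hx]
  set π' : Perm {x // x ∈ Δ} := π.subtypePerm hinv with hπ'
  have h1 : Equiv.Perm.ofSubtype π' = π := by
    apply Equiv.Perm.ofSubtype_subtypePerm
    intro x hx
    by_contra hcon
    exact hx (hfix x hcon)
  have h2 : π' ∈ alternatingGroup {x // x ∈ Δ} := by
    rw [Equiv.Perm.mem_alternatingGroup, ← Equiv.Perm.sign_ofSubtype, h1]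
    exact Equiv.Perm.mem_alternatingGroup.1 hπ
  have h3 := gen_alt {x // x ∈ Δ} hq h5 (by simpa using hΔ) π' h2
  have h4 : Subgroup.closure {s : Perm {x // x ∈ Δ} | s.IsCycle ∧ s.support.card = q} ≤
      (Subgroup.closure {s : Perm Ω | s.IsCycle ∧ s.support.card = q ∧ s.support ⊆ Δ}).comap
        (Equiv.Perm.ofSubtype (p := fun x => x ∈ Δ)) := by
    rw [Subgroup.closure_le]
    rintro s ⟨hs1, hs2⟩
    apply Subgroup.subset_closure
    have h5 : (Equiv.Perm.ofSubtype s).cycleType = s.cycleType := Equiv.Perm.cycleType_ofSubtype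
    refine ⟨?_, ?_, ?_⟩
    · rw [← Equiv.Perm.card_cycleType_eq_one, h5, Equiv.Perm.card_cycleType_eq_one]
      exact hs1
    · rw [← Equiv.Perm.sum_cycleType, h5, Equiv.Perm.sum_cycleType, hs2]
    · intro x hx
      by_contra hcon
      rw [Equiv.Perm.mem_support] at hx
      exact hx (Equiv.Perm.ofSubtype_apply_of_not_mem s hcon)
  have h5 := h4 h3
  rw [Subgroup.mem_comap, h1] at h5
  exact h5

section Main

variable {L Ω K V : Type} [Group L] [Fintype Ω] [DecidableEq Ω] [Field K] [AddCommGroup V]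
    [Module K V]

/-- the monoid generated by the lifts of the `q`-cycles supported in `Δ` -/
def HD (c : Perm Ω → Module.End K V) (q : ℕ) (Δ : Finset Ω) : Submonoid (Module.End K V) :=
  Submonoid.closure {y | ∃ s : Perm Ω, s.IsCycle ∧ s.support.card = q ∧ s.support ⊆ Δ ∧ y = c s}

/-- invertible elements of the monoid, with inverse in the monoid -/
def Good (c : Perm Ω → Module.End K V) (q : ℕ) (Δ : Finset Ω) (y y' : Module.End K V) : Prop :=
  y ∈ HD c q Δ ∧ y' ∈ HD c q Δ ∧ y * y' = 1 ∧ y' * y = 1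

theorem rho_inv (ρ : L →* Module.End K V) {x : L} {z : K} (hz : z ≠ 0) {y y' : Module.End K V}
    (h : ρ x = z • y) (h1 : y * y' = 1) : ρ x⁻¹ = z⁻¹ • y' := by
  have h2 : ρ x⁻¹ * ρ x = 1 := by rw [← map_mul, inv_mul_cancel, map_one]
  have h3 : ρ x * (z⁻¹ • y') = 1 := by
    rw [h, smul_mul_smul_comm, mul_inv_cancel₀ hz, one_smul, h1]
  calc ρ x⁻¹ = ρ x⁻¹ * (ρ x * (z⁻¹ • y')) := by rw [h3, mul_one]
    _ = z⁻¹ • y' := by rw [← mul_assoc, h2, one_mul]

theorem lift_closure {ψ : L →* alternatingGroup Ω} {ρ : L →* Module.End K V} {q : ℕ}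
    {c : Perm Ω → Module.End K V} (hq : q.Prime) (hc : CanLift ψ ρ q c) (Δ : Finset Ω)
    {π : Perm Ω}
    (hπ : π ∈ Subgroup.closure {s : Perm Ω | s.IsCycle ∧ s.support.card = q ∧ s.support ⊆ Δ}) :
    ∃ x : L, (ψ x : Perm Ω) = π ∧ ∃ z : K, z ≠ 0 ∧ ∃ y y' : Module.End K V,
      Good c q Δ y y' ∧ ρ x = z • y := by
  induction hπ using Subgroup.closure_induction with
  | mem s hs =>
    obtain ⟨hs1, hs2, hs3⟩ := hs
    obtain ⟨⟨d, hd, z, hz, hcz⟩, hpow, -, -⟩ := hc s hs1 hs2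
    have hmem : c s ∈ HD c q Δ := Submonoid.subset_closure ⟨s, hs1, hs2, hs3, rfl⟩
    have hq1 : q - 1 + 1 = q := Nat.succ_pred_eq_of_pos hq.pos
    refine ⟨d, hd, z⁻¹, inv_ne_zero hz, c s, c s ^ (q - 1),
      ⟨hmem, pow_mem hmem _, ?_, ?_⟩, ?_⟩
    · rw [← pow_succ', hq1, hpow]
    · rw [← pow_succ, hq1, hpow]
    · rw [hcz, smul_smul, inv_mul_cancel₀ hz, one_smul]
  | one =>
    refine ⟨1, by simp, 1, one_ne_zero, 1, 1, ⟨one_mem _, one_mem _, ?_, ?_⟩, ?_⟩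
    · rw [mul_one]
    · rw [mul_one]
    · rw [map_one, one_smul]
  | mul a b _ _ iha ihb =>
    obtain ⟨x1, hx1, z1, hz1, y1, y1', ⟨g1, g2, g3, g4⟩, hr1⟩ := iha
    obtain ⟨x2, hx2, z2, hz2, y2, y2', ⟨k1, k2, k3, k4⟩, hr2⟩ := ihb
    refine ⟨x1 * x2, ?_, z1 * z2, mul_ne_zero hz1 hz2, y1 * y2, y2' * y1',
      ⟨mul_mem g1 k1, mul_mem k2 g2, ?_, ?_⟩, ?_⟩
    · rw [map_mul, Subgroup.coe_mul, hx1, hx2]
    · calc y1 * y2 * (y2' * y1') = y1 * (y2 * y2') * y1' := by simp only [mul_assoc]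
        _ = 1 := by rw [k3, mul_one, g3]
    · calc y2' * y1' * (y1 * y2) = y2' * (y1' * y1) * y2 := by simp only [mul_assoc]
        _ = 1 := by rw [g4, mul_one, k4]
    · rw [map_mul, hr1, hr2, smul_mul_smul_comm]
  | inv a _ iha =>
    obtain ⟨x1, hx1, z1, hz1, y1, y1', ⟨g1, g2, g3, g4⟩, hr1⟩ := iha
    refine ⟨x1⁻¹, ?_, z1⁻¹, inv_ne_zero hz1, y1', y1, ⟨g2, g1, g4, g3⟩, ?_⟩
    · rw [map_inv, Subgroup.coe_inv, hx1]
    · exact rho_inv ρ hz1 hr1 g3

theorem lift_all {ψ : L →* alternatingGroup Ω} {ρ : L →* Module.End K V} {q : ℕ}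
    {c : Perm Ω → Module.End K V} (hq : q.Prime) (h5 : 5 ≤ q) (hV : ∃ v : V, v ≠ 0)
    (hs : Scal ρ ψ.ker) (hc : CanLift ψ ρ q c) (Δ : Finset Ω) (hΔ : q ≤ Δ.card) (x : L)
    (hx : ∀ ω, ω ∉ Δ → (ψ x : Perm Ω) ω = ω) :
    ∃ z : K, z ≠ 0 ∧ ∃ y y' : Module.End K V, Good c q Δ y y' ∧ ρ x = z • y := by
  have h1 := gen_set hq h5 Δ hΔ (ψ x : Perm Ω) (ψ x).2 hx
  obtain ⟨x0, hx0, z, hz, y, y', hg, hr⟩ := lift_closure hq hc Δ h1
  have h2 : x0⁻¹ * x ∈ ψ.ker := by
    rw [MonoidHom.mem_ker, map_mul, map_inv]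
    have h3 : ψ x0 = ψ x := Subtype.ext hx0
    rw [h3, inv_mul_cancel]
  obtain ⟨w, hw⟩ := hs _ h2
  have hw0 : w ≠ 0 := by
    rintro rfl
    obtain ⟨v, hv⟩ := hV
    apply hv
    have h4 : ρ (x0⁻¹ * x)⁻¹ (ρ (x0⁻¹ * x) v) = v := by
      have h5 : ρ (x0⁻¹ * x)⁻¹ * ρ (x0⁻¹ * x) = 1 := by
        rw [← map_mul, inv_mul_cancel, map_one]
      exact congrArg (fun f : Module.End K V => f v) h5
    rw [hw, zero_smul, map_zero] at h4
    exact h4.symm
  have h6 : ρ (x0⁻¹ * x) = w • (1 : Module.End K V) := by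
    ext v
    rw [hw v]
    rfl
  refine ⟨z * w, mul_ne_zero hz hw0, y, y', hg, ?_⟩
  have h7 : x = x0 * (x0⁻¹ * x) := by group
  rw [h7, map_mul, hr, h6, smul_mul_smul_comm, mul_one]

theorem commutator_mem {ψ : L →* alternatingGroup Ω} {ρ : L →* Module.End K V} {q : ℕ}
    {c : Perm Ω → Module.End K V} (hq : q.Prime) (h5 : 5 ≤ q) (hV : ∃ v : V, v ≠ 0)
    (hs : Scal ρ ψ.ker) (hc : CanLift ψ ρ q c) (Δ : Finset Ω) (hΔ : q ≤ Δ.card) (x1 x2 : L)
    (hx1 : ∀ ω, ω ∉ Δ → (ψ x1 : Perm Ω) ω = ω) (hx2 : ∀ ω, ω ∉ Δ → (ψ x2 : Perm Ω) ω = ω) :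
    ρ (x1 * x2 * x1⁻¹ * x2⁻¹) ∈ HD c q Δ := by
  obtain ⟨z1, hz1, y1, y1', ⟨g1, g2, g3, g4⟩, hr1⟩ := lift_all hq h5 hV hs hc Δ hΔ x1 hx1
  obtain ⟨z2, hz2, y2, y2', ⟨k1, k2, k3, k4⟩, hr2⟩ := lift_all hq h5 hV hs hc Δ hΔ x2 hx2
  have e1 := rho_inv ρ hz1 hr1 g3
  have e2 := rho_inv ρ hz2 hr2 k3
  have h : ρ (x1 * x2 * x1⁻¹ * x2⁻¹) = y1 * y2 * y1' * y2' := by
    rw [map_mul, map_mul, map_mul, hr1, hr2, e1, e2, smul_mul_smul_comm, smul_mul_smul_comm,
      smul_mul_smul_comm]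
    have h1 : z1 * z2 * z1⁻¹ * z2⁻¹ = 1 := by field_simp
    rw [h1, one_smul]
  rw [h]
  exact mul_mem (mul_mem (mul_mem g1 k1) g2) k2

theorem perf_mem {ψ : L →* alternatingGroup Ω} {ρ : L →* Module.End K V} {q : ℕ}
    {c : Perm Ω → Module.End K V} (hq : q.Prime) (h5 : 5 ≤ q) (hV : ∃ v : V, v ≠ 0)
    (hs : Scal ρ ψ.ker) (hc : CanLift ψ ρ q c) (Δ : Finset Ω) (hΔ : q ≤ Δ.card)
    (D : Subgroup L) (hD : PerfOn ψ Δ D) (d : L) (hd : d ∈ D) : ρ d ∈ HD c q Δ := by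
  have h1 : d ∈ ⁅D, D⁆ := by rw [hD.1]; exact hd
  clear hd
  have h2 : ρ d ∈ HD c q Δ ∧ ρ d⁻¹ ∈ HD c q Δ := by
    rw [Subgroup.commutator_def] at h1
    induction h1 using Subgroup.closure_induction with
    | mem x hx =>
      obtain ⟨a, ha, b, hb, rfl⟩ := hx
      constructor
      · exact commutator_mem hq h5 hV hs hc Δ hΔ a b (hD.2 a ha) (hD.2 b hb)
      · rw [commutatorElement_inv]
        exact commutator_mem hq h5 hV hs hc Δ hΔ b a (hD.2 b hb) (hD.2 a ha)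
    | one => simp [one_mem]
    | mul a b _ _ iha ihb =>
      rw [mul_inv_rev, map_mul, map_mul]
      exact ⟨mul_mem iha.1 ihb.1, mul_mem ihb.2 iha.2⟩
    | inv a _ iha => exact ⟨iha.2, by rw [inv_inv]; exact iha.1⟩
  exact h2.1

theorem vanish {q : ℕ} {c : Perm Ω → Module.End K V} {Δ Δ' : Finset Ω} (hdis : Disjoint Δ Δ')
    (hv : ∀ s₁ s₂ : Perm Ω, s₁.IsCycle → s₁.support.card = q → s₂.IsCycle →
      s₂.support.card = q → Equiv.Perm.Disjoint s₁ s₂ →
      ∀ v : V, c s₁ (c s₂ v) - c s₁ v - c s₂ v + v = 0) :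
    ∀ y ∈ HD c q Δ, ∀ y' ∈ HD c q Δ', (y - 1) * (y' - 1) = 0 := by
  have h1 : ∀ s : Perm Ω, s.IsCycle → s.support.card = q → s.support ⊆ Δ →
      ∀ y' ∈ HD c q Δ', (c s - 1) * (y' - 1) = 0 := by
    intro s hs1 hs2 hs3 y' hy'
    induction hy' using Submonoid.closure_induction with
    | mem y' hy' =>
      obtain ⟨s', h1, h2, h3, rfl⟩ := hy'
      have hd : Equiv.Perm.Disjoint s s' := by
        rw [Equiv.Perm.disjoint_iff_disjoint_support]
        exact Finset.disjoint_of_subset_left hs3 (Finset.disjoint_of_subset_right h3 hdis)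
      ext v
      have h4 := hv s s' hs1 hs2 h1 h2 hd v
      have h5 : ((c s - 1) * (c s' - 1)) v = c s (c s' v) - c s v - c s' v + v := by
        simp only [Module.End.mul_apply, LinearMap.sub_apply, Module.End.one_apply, map_sub]
        abel
      rw [h5, h4]
      rfl
    | one => rw [sub_self, mul_zero]
    | mul a b _ _ iha ihb =>
      have h2 : (c s - 1) * (a * b - 1) = ((c s - 1) * (a - 1)) * b + (c s - 1) * (b - 1) := by
        noncomm_ring
      rw [h2, iha, ihb, zero_mul, zero_add]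
  intro y hy y' hy'
  induction hy using Submonoid.closure_induction with
  | mem y hy =>
    obtain ⟨s, hs1, hs2, hs3, rfl⟩ := hy
    exact h1 s hs1 hs2 hs3 y' hy'
  | one => rw [sub_self, zero_mul]
  | mul a b _ _ iha ihb =>
    have h2 : (a * b - 1) * (y' - 1) = a * ((b - 1) * (y' - 1)) + (a - 1) * (y' - 1) := by
      noncomm_ring
    rw [h2, iha, ihb, mul_zero, zero_add]

end Main

theorem pf_ce : T_CE := by
  intro e q L Ω _ _ _ _ ψ K V _ _ _ ρ c hq h5 hqe hψ hV hs hc hv Δ Δ' hdis hΔ hΔ' D D' hD hD' d hd d' hd' v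
  have h1 := perf_mem hq h5 hV hs hc Δ (hqe.trans hΔ) D hD d hd
  have h2 := perf_mem hq h5 hV hs hc Δ' (hqe.trans hΔ') D' hD' d' hd'
  have h3 := vanish hdis hv _ h1 _ h2
  have h4 := congrArg (fun f : Module.End K V => f v) h3
  simp only [Module.End.mul_apply, LinearMap.sub_apply, Module.End.one_apply, map_sub,
    LinearMap.zero_apply] at h4
  rw [← h4]
  abel

end Pool.Agent.H94.NY.CE
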